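import Pool.Agent.Q239.OneP.Data

/-!
# Integer checks
-/

set_option autoImplicit false

namespace Pool.Agent.Q239.OneP

/-- vertex point -/
def ip (v : Fin 27) : ℤ × ℤ := PL.getD v.val (0, 0)

/-- neighbourhood mask -/
def nbm (v : Fin 27) : ℕ := (nbl.getD v.val (0, 0)).2

/-- adjacency -/
def ad (u v : Fin 27) : Bool := (nbm u).testBit v.val

theorem ad_symm : ∀ u v : Fin 27, ad u v = ad v u := by decide +kernel
theorem ad_irrefl : ∀ u : Fin 27, ad u u = false := by decide +kernel

/-- orientation -/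
def io (a b c : Fin 27) : ℤ :=
  ((ip b).1 - (ip a).1) * ((ip c).2 - (ip a).2) - ((ip b).2 - (ip a).2) * ((ip c).1 - (ip a).1)

theorem genpos : ∀ a b c : Fin 27, a ≠ b → c ≠ a → c ≠ b → io a b c ≠ 0 := by decide +kernel

theorem ip_inj : ∀ a b : Fin 27, ip a = ip b → a = b := by decide +kernel

/-- first triangulation -/
def T1 : List (Fin 27 × Fin 27 × Fin 27) :=
  TL ++ QL.flatMap (fun q => [(q.1, q.2.1, q.2.2.1), (q.1, q.2.2.1, q.2.2.2)])
/-- second triangulation -/
def T2 : List (Fin 27 × Fin 27 × Fin 27) :=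
  TL ++ QL.flatMap (fun q => [(q.1, q.2.1, q.2.2.2), (q.2.1, q.2.2.1, q.2.2.2)])

/-- apexes of triangles with directed side `(p, q)` -/
def apx (L : List (Fin 27 × Fin 27 × Fin 27)) (p q : Fin 27) : List (Fin 27) :=
  L.flatMap (fun T =>
    (if T.1 = p ∧ T.2.1 = q then [T.2.2] else []) ++
    (if T.2.1 = p ∧ T.2.2 = q then [T.1] else []) ++
    (if T.2.2 = p ∧ T.1 = q then [T.2.1] else []))

lemma mem_apx {L : List (Fin 27 × Fin 27 × Fin 27)} {p q r : Fin 27} :
    r ∈ apx L p q ↔ Side L p q r := by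
  unfold apx Side
  rw [List.mem_flatMap]
  constructor
  · rintro ⟨T, hT, h⟩
    obtain ⟨a, b, c⟩ := T
    simp only [List.mem_append] at h
    rcases h with (h | h) | h
    · split_ifs at h with h1
      · simp only [List.mem_singleton] at h
        obtain ⟨rfl, rfl⟩ := h1
        subst h
        exact Or.inl hT
      · simp at h
    · split_ifs at h with h1
      · simp only [List.mem_singleton] at h
        obtain ⟨rfl, rfl⟩ := h1
        subst h
        exact Or.inr (Or.inr hT)
      · simp at h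
    · split_ifs at h with h1
      · simp only [List.mem_singleton] at h
        obtain ⟨rfl, rfl⟩ := h1
        subst h
        exact Or.inr (Or.inl hT)
      · simp at h
  · rintro (h | h | h)
    · exact ⟨_, h, by simp⟩
    · exact ⟨_, h, by simp⟩
    · exact ⟨_, h, by simp⟩

/-- checks of a triangulation -/
def okT (L : List (Fin 27 × Fin 27 × Fin 27)) : Bool :=
  L.all (fun T =>
    decide (0 < io T.1 T.2.1 T.2.2) &&
    (!(apx L T.2.1 T.1).isEmpty || !(apx [out] T.1 T.2.1).isEmpty) &&
    (!(apx L T.2.2 T.2.1).isEmpty || !(apx [out] T.2.1 T.2.2).isEmpty) &&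
    (!(apx L T.1 T.2.2).isEmpty || !(apx [out] T.2.2 T.1).isEmpty) &&
    ad T.1 T.2.1 && ad T.2.1 T.2.2 && ad T.2.2 T.1 &&
    (List.finRange 27).all (fun v => v == T.1 || v == T.2.1 || v == T.2.2 ||
      decide (io T.1 T.2.1 v < 0) || decide (io T.2.1 T.2.2 v < 0) ||
      decide (io T.2.2 T.1 v < 0)))

theorem okT1 : okT T1 = true := by decide +kernel
theorem okT2 : okT T2 = true := by decide +kernel

/-- checks of the outer triangle -/
def okO (L : List (Fin 27 × Fin 27 × Fin 27)) : Bool :=
  decide (0 < io out.1 out.2.1 out.2.2) &&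
  !(apx L out.1 out.2.1).isEmpty && !(apx L out.2.1 out.2.2).isEmpty &&
  !(apx L out.2.2 out.1).isEmpty &&
  ad out.1 out.2.1 && ad out.2.1 out.2.2 && ad out.2.2 out.1 &&
  (List.finRange 27).all (fun v => v == out.1 || v == out.2.1 || v == out.2.2 ||
    (decide (0 < io out.1 out.2.1 v) && decide (0 < io out.2.1 out.2.2 v) &&
      decide (0 < io out.2.2 out.1 v)))

theorem okO1 : okO T1 = true := by decide +kernel
theorem okO2 : okO T2 = true := by decide +kernel

/-- is the pair a diagonal of a quadrangle -/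
def dg (x y : Fin 27) : Bool :=
  QL.any (fun q => (q.1 == x && q.2.2.1 == y) || (q.1 == y && q.2.2.1 == x) ||
    (q.2.1 == x && q.2.2.2 == y) || (q.2.1 == y && q.2.2.2 == x))

/-- the vertices of the faces at `xy` -/
def four (L : List (Fin 27 × Fin 27 × Fin 27)) (x y : Fin 27) : List (Fin 27) :=
  [x, y] ++ apx L x y ++ apx L y x ++ apx [out] x y ++ apx [out] y x

theorem final : ∀ x y : Fin 27, ad x y = true → dg x y = false →
    (four T1 x y).all (fun u => (four T1 x y).all (fun v =>
      !(four T2 x y).contains u || !(four T2 x y).contains v || u == v || ad u v)) = true := by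
  decide +kernel

/-- the pairs of diagonals -/
def dpair (a b c d : Fin 27) : Bool :=
  QL.any (fun q =>
    (((q.1 == a && q.2.2.1 == b) || (q.1 == b && q.2.2.1 == a)) &&
     ((q.2.1 == c && q.2.2.2 == d) || (q.2.1 == d && q.2.2.2 == c))) ||
    (((q.1 == c && q.2.2.1 == d) || (q.1 == d && q.2.2.1 == c)) &&
     ((q.2.1 == a && q.2.2.2 == b) || (q.2.1 == b && q.2.2.2 == a))))

/-- list of the edges -/
def EL : List (Fin 27 × Fin 27) :=
  (List.finRange 27).flatMap (fun u => ((List.finRange 27).filter (fun v => decide (u < v) && ad u v)).map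
    (fun v => (u, v)))

theorem EL_len : EL.length = 90 := by decide +kernel

theorem crosses : EL.all (fun e => EL.all (fun f =>
    (e.1 == f.1 || e.1 == f.2 || e.2 == f.1 || e.2 == f.2) ||
    dpair e.1 e.2 f.1 f.2 ||
    decide (0 < io e.1 e.2 f.1 * io e.1 e.2 f.2) ||
    decide (0 < io f.1 f.2 e.1 * io f.1 f.2 e.2))) = true := by decide +kernel

theorem quads : QL.all (fun q => ad q.1 q.2.2.1 && ad q.2.1 q.2.2.2 &&
    decide (io q.1 q.2.2.1 q.2.1 * io q.1 q.2.2.1 q.2.2.2 < 0) &&
    decide (io q.2.1 q.2.2.2 q.1 * io q.2.1 q.2.2.2 q.2.2.1 < 0)) = true := by decide +kernel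

end Pool.Agent.Q239.OneP
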