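import Pool.Agent.Q239.OneP.Check

/-!
# Five internally disjoint paths to each of five roots
-/

set_option autoImplicit false

namespace Pool.Agent.Q239.OneP

/-- interiors of five paths from each vertex to each of the roots `0, ..., 4` -/
def pths : List (List (List (List (Fin 27)))) := [
  [[],
   [[13], [6], [5], [2, 4], []],
   [[16, 13], [9, 5], [4], [3, 26], [1]],
   [[26], [25, 24], [12, 8, 6], [4], [2, 1]],
   [[26], [24], [6], [2, 1], []],
   [[9, 2, 3, 26], [7, 4], [6], [1], []],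
   [[8, 12, 3, 26], [5], [4], [1], []],
   [[9, 1], [8, 12, 3, 26], [6], [5], [4]],
   [[12, 3, 26], [11, 1], [7, 5], [6], [4]],
   [[10, 12, 3, 26], [7, 6], [5], [2, 4], [1]],
   [[12, 3, 26], [9, 1], [8, 6], [7, 4], [5]],
   [[12, 3, 26], [9, 5], [8, 6], [2, 4], [1]],
   [[10, 5], [8, 6], [4], [3, 26], [2, 1]],
   [[16, 2, 4], [15], [14], [1], []],
   [[19, 24], [17, 1], [15], [13], []],
   [[24], [19, 17, 1], [14], [13], []],
   [[20, 24], [17, 14], [13], [2, 4], [1]],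
   [[19, 15], [16, 2, 4], [14], [13], [1]],
   [[20, 24], [19, 15], [17, 13], [16, 1], [14]],
   [[24], [18, 16, 13], [17, 1], [15], [14]],
   [[25, 26], [24], [21, 15], [18, 14], [16, 1]],
   [[24], [19, 17, 13], [18, 14], [16, 1], [15]],
   [[26], [23, 24], [16, 13], [3, 4], [2, 1]],
   [[24], [22, 26], [20, 18, 14], [16, 13], [2, 1]],
   [[26], [19, 14], [15], [4], []],
   [[26], [24], [22, 2, 1], [20, 16, 13], [3, 4]],
   [[24], [22, 16, 13], [4], [3, 2, 1], []]],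
  [[[13], [6], [5], [4, 2], []],
   [],
   [[16], [11], [9], [4, 0], []],
   [[26, 0], [22, 16], [12, 11], [4, 6], [2]],
   [[8, 11], [7, 5], [6], [2], [0]],
   [[10, 11], [9], [6], [], [0]],
   [[7, 9], [5], [4, 2], [], [0]],
   [[9], [8, 11], [6], [5], [4, 0]],
   [[11], [10, 9], [7, 5], [6], [4, 0]],
   [[11], [7, 6], [5], [2], []],
   [[12, 2], [11], [9], [7, 6], [5]],
   [[10, 5], [9], [8, 6], [2], []],
   [[11], [10, 5], [8, 6], [4, 0], [2]],
   [[17], [16], [15, 24, 4, 2], [], [0]],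
   [[18, 16], [17], [15, 24, 4, 2], [13], [0]],
   [[24, 4, 2], [21, 16], [14, 17], [13], [0]],
   [[18, 14, 0], [17], [13], [2], []],
   [[18, 20, 23, 2], [16], [14, 0], [13], []],
   [[20, 23, 2], [19, 15, 13], [17], [16], [14, 0]],
   [[24, 4, 2], [18, 16], [17], [15, 13], [14, 0]],
   [[24, 0], [23, 2], [21, 15, 13], [18, 17], [16]],
   [[20, 23, 2], [19, 14, 13], [18, 17], [16], [15, 0]],
   [[26, 0], [23, 20, 18, 17], [16], [3, 4, 6], [2]],
   [[24, 0], [22, 3, 4, 6], [20, 18, 17], [16], [2]],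
   [[20, 16], [19, 17], [15, 13], [4, 2], [0]],
   [[26, 4, 6], [24, 0], [22, 2], [20, 16], [3, 12, 11]],
   [[24, 15, 13], [22, 16], [4, 6], [3, 2], [0]]],
  [[[24, 23], [13, 16], [5, 9], [4], [1]],
   [[16], [11], [9], [], [0, 4]],
   [],
   [[25, 23], [22], [12], [4], []],
   [[12], [7, 9], [3], [], [0, 1]],
   [[10, 11], [9], [6, 8, 12], [1], [0, 4]],
   [[8, 11], [5, 9], [4], [1], [0, 13, 16]],
   [[10, 12], [9], [8, 11], [5, 1], [4]],
   [[12], [11], [7, 9], [6, 1], [4]],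
   [[11], [10, 12], [7, 4], [], [1]],
   [[12], [11], [9], [7, 4], [5, 1]],
   [[12], [9], [8, 4], [], [1]],
   [[11], [10, 9], [4], [3], []],
   [[16], [15, 24, 23], [14, 18, 20, 25, 3], [1], [0, 4]],
   [[18, 20, 23], [17, 1], [15, 24, 4], [13, 16], [0, 5, 9]],
   [[24, 4], [21, 20, 23], [14, 17, 1], [13, 16], [0, 5, 9]],
   [[23], [22], [13, 0, 4], [], [1]],
   [[19, 24, 25, 3], [18, 20, 23], [16], [13, 0, 4], [1]],
   [[20, 23], [19, 24, 25, 3], [17, 1], [16], [14, 0, 4]],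
   [[24, 4], [21, 20, 23], [18, 16], [17, 1], [14, 0, 5, 9]],
   [[25, 3], [24, 4], [23], [18, 17, 1], [16]],
   [[24, 4], [20, 23], [18, 17, 1], [16], [15, 0, 5, 9]],
   [[26, 4], [23], [16], [3], []],
   [[25, 3], [24, 4], [22], [16], []],
   [[25, 3], [23], [20, 16], [4], [0, 1]],
   [[24, 4], [23], [22], [20, 16], [3]],
   [[24, 23], [22], [4], [3], [0, 1]]],
  [[[26], [24, 25], [5, 10, 12], [4], [1, 2]],
   [[16, 22], [11, 12], [6, 4], [2], [0, 26]],
   [[23, 25], [22], [12], [4], []],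
   [],
   [[26], [24, 25], [12], [], [2]],
   [[10, 12], [9, 2], [6, 4], [1, 16, 22], [0, 26]],
   [[8, 12], [5, 9, 2], [4], [1, 16, 22], [0, 26]],
   [[9, 2], [8, 12], [6, 1, 16, 22], [5, 0, 26], [4]],
   [[12], [11, 2], [7, 5, 1, 16, 22], [6, 0, 26], [4]],
   [[10, 12], [7, 4], [5, 0, 26], [2], [1, 16, 22]],
   [[12], [11, 1, 16, 22], [9, 2], [7, 4], [5, 0, 26]],
   [[12], [9, 5, 0, 26], [8, 4], [2], [1, 16, 22]],
   [[11, 1, 16, 22], [8, 6, 0, 26], [4], [], [2]],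
   [[16, 22], [15, 24, 26], [14, 18, 20, 25], [1, 2], [0, 4]],
   [[18, 20, 25], [17, 16, 22], [15, 24, 26], [13, 1, 2], [0, 4]],
   [[24, 26], [21, 16, 22], [14, 18, 20, 25], [13, 1, 2], [0, 4]],
   [[22], [21, 24, 26], [20, 25], [2], [1, 0, 4]],
   [[19, 24, 26], [18, 20, 25], [16, 22], [13, 0, 4], [1, 2]],
   [[20, 25], [19, 24, 26], [17, 1, 2], [16, 22], [14, 0, 4]],
   [[24, 4], [21, 20, 25], [18, 16, 22], [17, 1, 2], [14, 0, 26]],
   [[25], [24, 4], [23, 22], [18, 14, 0, 26], [16, 2]],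
   [[24, 4], [20, 25], [18, 17, 1, 2], [16, 22], [15, 0, 26]],
   [[26], [25], [23, 24, 4], [], [2]],
   [[25], [24, 4], [22], [16, 1, 0, 26], [2]],
   [[26], [25], [23, 2], [20, 16, 22], [4]],
   [[26], [24, 4], [23, 2], [22], []],
   [[25], [22], [4], [], [0, 1, 2]]],
  [[[26], [24], [6], [], [1, 2]],
   [[11, 8], [6], [5, 7], [2], [0]],
   [[12], [9, 7], [], [3], [1, 0]],
   [[26], [25, 24], [12], [], [2]],
   [],
   [[10, 8], [7], [6], [1, 2], [0]],
   [[8], [7], [], [1, 2], [0]],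
   [[9, 2], [8], [6], [5, 0], []],
   [[12], [11, 2], [7], [6], []],
   [[10, 8], [7], [5, 6], [2], [1, 0]],
   [[12], [9, 2], [8], [7], [5, 0]],
   [[12], [9, 7], [8], [2], [1, 0]],
   [[10, 7], [8], [], [3], [2]],
   [[16, 2], [15, 24], [14, 18, 20, 25, 3], [1, 6], [0]],
   [[18, 20, 25, 3], [17, 16, 2], [15, 24], [13, 1, 6], [0]],
   [[24], [21, 16, 2], [14, 18, 20, 25, 3], [13, 1, 6], [0]],
   [[22, 3], [20, 24], [13, 0], [2], [1, 6]],
   [[19, 24], [18, 20, 25, 3], [16, 2], [13, 0], [1, 6]],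
   [[20, 25, 3], [19, 24], [17, 1, 6], [16, 2], [14, 0]],
   [[24], [21, 20, 25, 3], [18, 16, 2], [17, 1, 6], [14, 0]],
   [[25, 3], [24], [23, 22, 26], [18, 14, 0], [16, 2]],
   [[24], [20, 25, 3], [18, 17, 1, 6], [16, 2], [15, 0]],
   [[26], [23, 24], [16, 1, 0], [3], [2]],
   [[25, 26], [24], [22, 3], [16, 1, 0], [2]],
   [[26], [25, 3], [23, 2], [], [0]],
   [[26], [24], [22, 2], [20, 16, 1, 0], [3]],
   [[24], [22, 2], [], [3], [0]]]]

/-- is the list of vertices a path from `u` to `v` (interior vertices only) -/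
def isP (u v : Fin 27) : List (Fin 27) → Bool
  | [] => ad u v
  | w :: l => ad u w && isP w v l

/-- the check for a root and a vertex -/
def okP (r v : Fin 27) : Bool :=
  r == v || (let ps := (pths.getD r.val []).getD v.val []
    decide (ps.length = 5) && ps.all (isP v r) && decide ps.flatten.Nodup)

theorem okP_all : ∀ r : Fin 5, ∀ v : Fin 27, okP (r.castLE (by norm_num)) v = true := by
  decide +kernel

end Pool.Agent.Q239.OneP
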