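import Pool.Agent.Q239.OneP.Draw
import Pool.Agent.Q239.OneP.Chk

/-!
# The connectivity is five
-/

set_option autoImplicit false

namespace Pool.Agent.Q239.OneP

lemma pigeon : ∀ (LL : List (List (Fin 27))) (S : Finset (Fin 27)), LL.flatten.Nodup →
    (∀ l ∈ LL, ∃ x ∈ l, x ∈ S) → LL.length ≤ S.card
  | [], S, _, _ => by simp
  | l :: LL, S, hn, h => by
      rw [List.flatten_cons, List.nodup_append] at hn
      obtain ⟨x, hx, hxS⟩ := h l List.mem_cons_self
      have ih := pigeon LL (S.erase x) hn.2.1 (by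
        intro l' hl'
        obtain ⟨y, hy, hyS⟩ := h l' (List.mem_cons_of_mem _ hl')
        refine ⟨y, hy, Finset.mem_erase.mpr ⟨?_, hyS⟩⟩
        intro hyx
        exact hn.2.2 x hx y (List.mem_flatten.mpr ⟨l', hl', hy⟩) hyx.symm)
      rw [Finset.card_erase_of_mem hxS] at ih
      have : 0 < S.card := Finset.card_pos.mpr ⟨x, hxS⟩
      simp only [List.length_cons]
      omega

lemma reach_of {S : Finset (Fin 27)} : ∀ (l : List (Fin 27)) (u v : Fin 27) (hu : u ∉ S)
    (hv : v ∉ S), isP u v l = true → (∀ x ∈ l, x ∉ S) →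
    (Gr.induce {v | v ∉ S}).Reachable ⟨u, hu⟩ ⟨v, hv⟩
  | [], u, v, hu, hv, h, _ => by
      apply SimpleGraph.Adj.reachable
      rw [SimpleGraph.comap_adj]
      exact h
  | w :: l, u, v, hu, hv, h, hS => by
      rw [isP, Bool.and_eq_true] at h
      have hw : w ∉ S := hS w List.mem_cons_self
      have h1 : (Gr.induce {v | v ∉ S}).Reachable ⟨u, hu⟩ ⟨w, hw⟩ := by
        apply SimpleGraph.Adj.reachable
        rw [SimpleGraph.comap_adj]
        exact h.1
      exact h1.trans (reach_of l w v hw hv h.2 (fun x hx => hS x (List.mem_cons_of_mem _ hx)))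

lemma reach_root {S : Finset (Fin 27)} (hS : S.card ≤ 4) (r : Fin 5)
    (hr : (r.castLE (by norm_num) : Fin 27) ∉ S) (v : Fin 27) (hv : v ∉ S) :
    (Gr.induce {v | v ∉ S}).Reachable ⟨v, hv⟩ ⟨r.castLE (by norm_num), hr⟩ := by
  have h := okP_all r v
  unfold okP at h
  rw [Bool.or_eq_true] at h
  rcases h with h | h
  · have : (r.castLE (by norm_num) : Fin 27) = v := beq_iff_eq.mp h
    subst this
    exact SimpleGraph.Reachable.refl _
  · simp only [Bool.and_eq_true, decide_eq_true_eq] at h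
    obtain ⟨⟨h1, h2⟩, h3⟩ := h
    by_contra hcon
    have := pigeon _ S h3 (by
      intro l hl
      by_contra hl'
      push Not at hl'
      have hp := List.all_eq_true.mp h2 l hl
      exact hcon (reach_of l v _ hv hr hp hl'))
    omega

theorem conn_of {S : Finset (Fin 27)} (hS : S.card ≤ 4) :
    (Gr.induce {v | v ∉ S}).Connected := by
  have hex : ∃ r : Fin 5, (r.castLE (by norm_num) : Fin 27) ∉ S := by
    by_contra hcon
    push Not at hcon
    have hsub : (Finset.univ : Finset (Fin 5)).map (Fin.castLEEmb (by norm_num : 5 ≤ 27)) ⊆ S := by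
      intro x hx
      rw [Finset.mem_map] at hx
      obtain ⟨r, -, rfl⟩ := hx
      exact hcon r
    have := Finset.card_le_card hsub
    rw [Finset.card_map, Finset.card_univ, Fintype.card_fin] at this
    omega
  obtain ⟨r, hr⟩ := hex
  have : Nonempty {v // v ∈ {v : Fin 27 | v ∉ S}} := ⟨⟨_, hr⟩⟩
  exact SimpleGraph.Connected.mk (fun a b =>
    (reach_root hS r hr a.1 a.2).trans (reach_root hS r hr b.1 b.2).symm)

theorem five : KConnected 5 Gr := by
  refine ⟨by simp, fun S hS => conn_of (by omega)⟩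

/-- the component -/
def compm : Fin 27 → Bool := fun v => decide (5 ≤ v.val) && decide (v.val ≤ 12)

theorem not_six : ¬ KConnected 6 Gr := by
  rintro ⟨-, h⟩
  have hc := h {0, 1, 2, 3, 4} (by decide)
  have hcl : ∀ a b : Fin 27, a ∉ ({0, 1, 2, 3, 4} : Finset (Fin 27)) →
      b ∉ ({0, 1, 2, 3, 4} : Finset (Fin 27)) → ad a b = true → compm a = compm b := by
    decide +kernel
  have hreach : ∀ a b : {v // v ∈ {v : Fin 27 | v ∉ ({0, 1, 2, 3, 4} : Finset (Fin 27))}},
      (Gr.induce {v | v ∉ ({0, 1, 2, 3, 4} : Finset (Fin 27))}).Reachable a b →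
        compm a.1 = compm b.1 := by
    rintro a b ⟨w⟩
    induction w with
    | nil => rfl
    | @cons u v _ hadj _ ih => exact (hcl u.1 v.1 u.2 v.2 hadj).trans ih
  have h1 := hreach ⟨5, by decide⟩ ⟨26, by decide⟩ (hc.preconnected _ _)
  revert h1
  decide

end Pool.Agent.Q239.OneP
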