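import Pool.Agent.Q239.OneP.Cover

/-!
# Connected sets avoiding all sides but one
-/

set_option autoImplicit false

namespace Pool.Agent.Q239.OneP

open Pool.Agent.Helper770.Straight Topology

variable {n : ℕ} {P : Fin n → ℂ} {L : List (Fin n × Fin n × Fin n)} {o : Fin n × Fin n × Fin n}

/-- `A` avoids all sides except possibly `xy`, and all vertices -/
structure Avoid (P : Fin n → ℂ) (L : List (Fin n × Fin n × Fin n)) (o : Fin n × Fin n × Fin n)
    (x y : Fin n) (A : Set ℂ) : Prop where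
  conn : IsPreconnected A
  vert : ∀ v, P v ∉ A
  side : ∀ p q r, Side L p q r → s(p, q) ≠ s(x, y) → Disjoint A (segment ℝ (P p) (P q))
  oside : ∀ p q r, OSide o p q r → s(p, q) ≠ s(x, y) → Disjoint A (segment ℝ (P p) (P q))

lemma distinct {a b c : Fin n} (h : 0 < ori (P a) (P b) (P c)) : a ≠ b ∧ b ≠ c ∧ c ≠ a := by
  refine ⟨?_, ?_, ?_⟩
  · rintro rfl; simp [ori] at h
  · rintro rfl; rw [ori_self₂] at h; exact lt_irrefl _ h
  · rintro rfl; rw [ori_self₁] at h; exact lt_irrefl _ h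

lemma side_ne {a b c : Fin n} (h : 0 < ori (P a) (P b) (P c)) :
    s(b, c) ≠ s(a, b) ∧ s(c, a) ≠ s(a, b) := by
  obtain ⟨h1, h2, h3⟩ := distinct h
  constructor
  · intro h
    rcases Sym2.eq_iff.mp h with ⟨h4, -⟩ | ⟨-, h4⟩
    · exact h1 h4.symm
    · exact h3 h4
  · intro h
    rcases Sym2.eq_iff.mp h with ⟨h4, -⟩ | ⟨h4, -⟩
    · exact h3 h4
    · exact h2 h4.symm

/-- a point of `A` in a closed triangle with side `xy` -/
lemma in_tri (ht : Trg P L o) {x y : Fin n} {A : Set ℂ} (hA : Avoid P L o x y A) {p q r : Fin n}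
    (h : Side L p q r) (hxy : s(p, q) = s(x, y)) {z : ℂ} (hz : z ∈ A)
    (hK : z ∈ Kt (P p) (P q) (P r)) :
    z ∈ Ot (P p) (P q) (P r) ∨ z ∈ openSegment ℝ (P p) (P q) := by
  by_cases ho : z ∈ Ot (P p) (P q) (P r)
  · exact Or.inl ho
  right
  have hp := ht.pos _ _ _ h
  obtain ⟨n1, n2⟩ := side_ne hp
  have hne : ∀ v, z ≠ P v := fun v hv => hA.vert v (hv ▸ hz)
  rcases on_side hp hK ho with g | g | g
  · exact seg_open g (hne _) (hne _)
  · exact absurd g (Set.disjoint_left.mp (hA.side _ _ _ h.rot (hxy ▸ n1)) hz)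
  · exact absurd g (Set.disjoint_left.mp (hA.side _ _ _ h.rot.rot (hxy ▸ n2)) hz)

lemma in_out (ht : Trg P L o) {x y : Fin n} {A : Set ℂ} (hA : Avoid P L o x y A) {p q r : Fin n}
    (h : OSide o p q r) (hxy : s(p, q) = s(x, y)) {z : ℂ} (hz : z ∈ A)
    (hK : z ∈ Ko (P p) (P q) (P r)) :
    z ∈ Oo (P p) (P q) (P r) ∨ z ∈ openSegment ℝ (P p) (P q) := by
  by_cases ho : z ∈ Oo (P p) (P q) (P r)
  · exact Or.inl ho
  right
  have hp := ht.opos _ _ _ h
  obtain ⟨n1, n2⟩ := side_ne hp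
  have hne : ∀ v, z ≠ P v := fun v hv => hA.vert v (hv ▸ hz)
  rcases on_side_out hp hK ho with g | g | g
  · exact seg_open g (hne _) (hne _)
  · exact absurd g (Set.disjoint_left.mp (hA.oside _ _ _ h.rot (hxy ▸ n1)) hz)
  · exact absurd g (Set.disjoint_left.mp (hA.oside _ _ _ h.rot.rot (hxy ▸ n2)) hz)

lemma two_open (ht : Trg P L o) {p q r r' : Fin n} (h : Side L p q r) (h' : Side L q p r') :
    IsOpen (Ot (P p) (P q) (P r) ∪ openSegment ℝ (P p) (P q) ∪ Ot (P q) (P p) (P r')) := by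
  rw [isOpen_iff_mem_nhds]
  rintro z ((hz | hz) | hz)
  · exact Filter.mem_of_superset ((Ot_open _ _ _).mem_nhds hz)
      (Set.subset_union_left.trans Set.subset_union_left)
  · exact near_two (ht.pos _ _ _ h) (ht.pos _ _ _ h') hz
  · exact Filter.mem_of_superset ((Ot_open _ _ _).mem_nhds hz) Set.subset_union_right

lemma out_open (ht : Trg P L o) {p q r r' : Fin n} (h : Side L p q r) :
    IsOpen (Ot (P p) (P q) (P r) ∪ openSegment ℝ (P p) (P q) ∪ Oo (P p) (P q) (P r')) := by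
  rw [isOpen_iff_mem_nhds]
  rintro z ((hz | hz) | hz)
  · exact Filter.mem_of_superset ((Ot_open _ _ _).mem_nhds hz)
      (Set.subset_union_left.trans Set.subset_union_left)
  · exact near_out (ht.pos _ _ _ h) hz
  · exact Filter.mem_of_superset ((Oo_open _ _ _).mem_nhds hz) Set.subset_union_right

/-- the two triangles at `xy` -/
lemma case_two (ht : Trg P L o) {x y : Fin n} {A : Set ℂ} (hA : Avoid P L o x y A)
    {p q r r' : Fin n} (h : Side L p q r) (h' : Side L q p r') (hxy : s(p, q) = s(x, y))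
    {z : ℂ} (hz : z ∈ A)
    (hm : z ∈ Ot (P p) (P q) (P r) ∪ openSegment ℝ (P p) (P q) ∪ Ot (P q) (P p) (P r')) :
    closure A ⊆ Kt (P p) (P q) (P r) ∪ Kt (P q) (P p) (P r') := by
  set M := Ot (P p) (P q) (P r) ∪ openSegment ℝ (P p) (P q) ∪ Ot (P q) (P p) (P r') with hM
  have hMK : M ⊆ Kt (P p) (P q) (P r) ∪ Kt (P q) (P p) (P r') := by
    rintro w ((hw | hw) | hw)
    · exact Or.inl (Ot_sub _ _ _ hw)
    · exact Or.inl (seg_sub_Kt (ht.pos _ _ _ h) hw)
    · exact Or.inr (Ot_sub _ _ _ hw)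
  have hcl : closure M ⊆ Kt (P p) (P q) (P r) ∪ Kt (P q) (P p) (P r') :=
    closure_minimal hMK ((Kt_closed _ _ _).union (Kt_closed _ _ _))
  have hAM : A ⊆ M := by
    apply hA.conn.subset_of_closure_inter_subset (two_open ht h h') ⟨z, hz, hm⟩
    rintro w ⟨hw1, hw2⟩
    rcases hcl hw1 with hw | hw
    · rcases in_tri ht hA h hxy hw2 hw with g | g
      · exact Or.inl (Or.inl g)
      · exact Or.inl (Or.inr g)
    · have hxy' : s(q, p) = s(x, y) := by rw [Sym2.eq_swap]; exact hxy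
      rcases in_tri ht hA h' hxy' hw2 hw with g | g
      · exact Or.inr g
      · exact Or.inl (Or.inr (by rw [openSegment_symm]; exact g))
  exact (closure_mono hAM).trans hcl

lemma case_out (ht : Trg P L o) {x y : Fin n} {A : Set ℂ} (hA : Avoid P L o x y A)
    {p q r r' : Fin n} (h : Side L p q r) (h' : OSide o p q r') (hxy : s(p, q) = s(x, y))
    {z : ℂ} (hz : z ∈ A)
    (hm : z ∈ Ot (P p) (P q) (P r) ∪ openSegment ℝ (P p) (P q) ∪ Oo (P p) (P q) (P r')) :
    closure A ⊆ Kt (P p) (P q) (P r) ∪ Ko (P p) (P q) (P r') := by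
  set M := Ot (P p) (P q) (P r) ∪ openSegment ℝ (P p) (P q) ∪ Oo (P p) (P q) (P r') with hM
  have hMK : M ⊆ Kt (P p) (P q) (P r) ∪ Ko (P p) (P q) (P r') := by
    rintro w ((hw | hw) | hw)
    · exact Or.inl (Ot_sub _ _ _ hw)
    · exact Or.inl (seg_sub_Kt (ht.pos _ _ _ h) hw)
    · exact Or.inr (Oo_sub _ _ _ hw)
  have hcl : closure M ⊆ Kt (P p) (P q) (P r) ∪ Ko (P p) (P q) (P r') :=
    closure_minimal hMK ((Kt_closed _ _ _).union (Ko_closed _ _ _))
  have hAM : A ⊆ M := by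
    apply hA.conn.subset_of_closure_inter_subset (out_open ht h) ⟨z, hz, hm⟩
    rintro w ⟨hw1, hw2⟩
    rcases hcl hw1 with hw | hw
    · rcases in_tri ht hA h hxy hw2 hw with g | g
      · exact Or.inl (Or.inl g)
      · exact Or.inl (Or.inr g)
    · rcases in_out ht hA h' hxy hw2 hw with g | g
      · exact Or.inr g
      · exact Or.inl (Or.inr g)
  exact (closure_mono hAM).trans hcl

/-- the conclusion: where the closure of `A` can be -/
def Loc (P : Fin n → ℂ) (L : List (Fin n × Fin n × Fin n)) (o : Fin n × Fin n × Fin n)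
    (x y : Fin n) (A : Set ℂ) : Prop :=
  (∃ p q r, Side L p q r ∧ closure A ⊆ Kt (P p) (P q) (P r)) ∨
  (∃ p q r, OSide o p q r ∧ closure A ⊆ Ko (P p) (P q) (P r)) ∨
  (∃ p q r r', s(p, q) = s(x, y) ∧ Side L p q r ∧ Side L q p r' ∧
    closure A ⊆ Kt (P p) (P q) (P r) ∪ Kt (P q) (P p) (P r')) ∨
  (∃ p q r r', s(p, q) = s(x, y) ∧ Side L p q r ∧ OSide o p q r' ∧
    closure A ⊆ Kt (P p) (P q) (P r) ∪ Ko (P p) (P q) (P r'))

lemma loc_seg (ht : Trg P L o) {x y : Fin n} {A : Set ℂ} (hA : Avoid P L o x y A)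
    {p q r : Fin n} (h : Side L p q r) (hxy : s(p, q) = s(x, y)) {z : ℂ} (hz : z ∈ A)
    (hm : z ∈ Ot (P p) (P q) (P r) ∨ z ∈ openSegment ℝ (P p) (P q)) : Loc P L o x y A := by
  rcases ht.nb p q r h with ⟨r', h'⟩ | ⟨r', h'⟩
  · exact Or.inr (Or.inr (Or.inl ⟨p, q, r, r', hxy, h, h',
      case_two ht hA h h' hxy hz (Or.inl (by simpa using hm))⟩))
  · exact Or.inr (Or.inr (Or.inr ⟨p, q, r, r', hxy, h, h',
      case_out ht hA h h' hxy hz (Or.inl (by simpa using hm))⟩))

/-- a point of `A` on a side -/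
lemma loc_on (ht : Trg P L o) {x y : Fin n} {A : Set ℂ} (hA : Avoid P L o x y A)
    {p q r : Fin n} (h : Side L p q r) {z : ℂ} (hz : z ∈ A) (hm : z ∈ segment ℝ (P p) (P q)) :
    Loc P L o x y A := by
  have hne : ∀ v, z ≠ P v := fun v hv => hA.vert v (hv ▸ hz)
  by_cases hxy : s(p, q) = s(x, y)
  · exact loc_seg ht hA h hxy hz (Or.inr (seg_open hm (hne _) (hne _)))
  · exact absurd hm (Set.disjoint_left.mp (hA.side _ _ _ h hxy) hz)

theorem loc (ht : Trg P L o) {x y : Fin n} {A : Set ℂ} (hA : Avoid P L o x y A)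
    (hne : A.Nonempty) : Loc P L o x y A := by
  obtain ⟨z, hz⟩ := hne
  have hzP : z ∉ Set.range P := by
    rintro ⟨v, rfl⟩; exact hA.vert v hz
  rcases mem_cov (cov_all ht hzP) with ⟨p, q, r, h, hK⟩ | ⟨p, q, r, h, hK⟩
  · by_cases ho : z ∈ Ot (P p) (P q) (P r)
    · -- interior of a triangle
      by_cases h1 : s(p, q) = s(x, y)
      · exact loc_seg ht hA h h1 hz (Or.inl ho)
      by_cases h2 : s(q, r) = s(x, y)
      · exact loc_seg ht hA h.rot h2 hz (Or.inl (by rw [← Ot_rot]; exact ho))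
      by_cases h3 : s(r, p) = s(x, y)
      · exact loc_seg ht hA h.rot.rot h3 hz (Or.inl (by rw [← Ot_rot, ← Ot_rot]; exact ho))
      left
      refine ⟨p, q, r, h, ?_⟩
      have hcl : closure (Ot (P p) (P q) (P r)) ⊆ Kt (P p) (P q) (P r) :=
        closure_minimal (Ot_sub _ _ _) (Kt_closed _ _ _)
      have hAM : A ⊆ Ot (P p) (P q) (P r) := by
        apply hA.conn.subset_of_closure_inter_subset (Ot_open _ _ _) ⟨z, hz, ho⟩
        rintro w ⟨hw1, hw2⟩
        by_contra hc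
        rcases on_side (ht.pos _ _ _ h) (hcl hw1) hc with g | g | g
        · exact Set.disjoint_left.mp (hA.side _ _ _ h h1) hw2 g
        · exact Set.disjoint_left.mp (hA.side _ _ _ h.rot h2) hw2 g
        · exact Set.disjoint_left.mp (hA.side _ _ _ h.rot.rot h3) hw2 g
      exact (closure_mono hAM).trans hcl
    · rcases on_side (ht.pos _ _ _ h) hK ho with g | g | g
      · exact loc_on ht hA h hz g
      · exact loc_on ht hA h.rot hz g
      · exact loc_on ht hA h.rot.rot hz g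
  · by_cases ho : z ∈ Oo (P p) (P q) (P r)
    · -- outside
      have hout : ∀ {p q r : Fin n}, OSide o p q r → z ∈ Oo (P p) (P q) (P r) →
          s(p, q) = s(x, y) → Loc P L o x y A := by
        intro p q r h ho h1
        obtain ⟨r', h'⟩ := ht.onb _ _ _ h
        exact Or.inr (Or.inr (Or.inr ⟨p, q, r', r, h1, h', h,
          case_out ht hA h' h h1 hz (Or.inr ho)⟩))
      by_cases h1 : s(p, q) = s(x, y)
      · exact hout h ho h1
      by_cases h2 : s(q, r) = s(x, y)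
      · exact hout h.rot (by rw [← Oo_rot]; exact ho) h2
      by_cases h3 : s(r, p) = s(x, y)
      · exact hout h.rot.rot (by rw [← Oo_rot, ← Oo_rot]; exact ho) h3
      right; left
      refine ⟨p, q, r, h, ?_⟩
      have hcl : closure (Oo (P p) (P q) (P r)) ⊆ Ko (P p) (P q) (P r) :=
        closure_minimal (Oo_sub _ _ _) (Ko_closed _ _ _)
      have hAM : A ⊆ Oo (P p) (P q) (P r) := by
        apply hA.conn.subset_of_closure_inter_subset (Oo_open _ _ _) ⟨z, hz, ho⟩
        rintro w ⟨hw1, hw2⟩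
        by_contra hc
        rcases on_side_out (ht.opos _ _ _ h) (hcl hw1) hc with g | g | g
        · exact Set.disjoint_left.mp (hA.oside _ _ _ h h1) hw2 g
        · exact Set.disjoint_left.mp (hA.oside _ _ _ h.rot h2) hw2 g
        · exact Set.disjoint_left.mp (hA.oside _ _ _ h.rot.rot h3) hw2 g
      exact (closure_mono hAM).trans hcl
    · rcases on_side_out (ht.opos _ _ _ h) hK ho with g | g | g
      · obtain ⟨r', h'⟩ := ht.onb _ _ _ h
        exact loc_on ht hA h' hz g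
      · obtain ⟨r', h'⟩ := ht.onb _ _ _ h.rot
        exact loc_on ht hA h' hz g
      · obtain ⟨r', h'⟩ := ht.onb _ _ _ h.rot.rot
        exact loc_on ht hA h' hz g

end Pool.Agent.Q239.OneP
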