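import Pool.Agent.Q239.OneP.Tri

/-!
# A straight-line triangulation covers the plane; connected sets avoiding the sides
-/

set_option autoImplicit false

namespace Pool.Agent.Q239.OneP

open Pool.Agent.Helper770.Straight Topology

variable {n : ℕ}

/-- `(p, q)` is a directed side of a triangle of the list, with apex `r` -/
def Side (L : List (Fin n × Fin n × Fin n)) (p q r : Fin n) : Prop :=
  (p, q, r) ∈ L ∨ (q, r, p) ∈ L ∨ (r, p, q) ∈ L

/-- `(p, q)` is a directed side of the outer triangle, with apex `r` -/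
def OSide (o : Fin n × Fin n × Fin n) (p q r : Fin n) : Prop :=
  (p, q, r) = o ∨ (q, r, p) = o ∨ (r, p, q) = o

lemma Side.rot {L : List (Fin n × Fin n × Fin n)} {p q r : Fin n} (h : Side L p q r) :
    Side L q r p := by
  unfold Side at *; tauto
lemma OSide.rot {o : Fin n × Fin n × Fin n} {p q r : Fin n} (h : OSide o p q r) :
    OSide o q r p := by
  unfold OSide at *; tauto

/-- a straight-line triangulation with outer triangle `o` -/
structure Trg (P : Fin n → ℂ) (L : List (Fin n × Fin n × Fin n)) (o : Fin n × Fin n × Fin n) :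
    Prop where
  pos : ∀ p q r, Side L p q r → 0 < ori (P p) (P q) (P r)
  opos : ∀ p q r, OSide o p q r → 0 < ori (P p) (P q) (P r)
  nb : ∀ p q r, Side L p q r → (∃ r', Side L q p r') ∨ (∃ r', OSide o p q r')
  onb : ∀ p q r, OSide o p q r → ∃ r', Side L p q r'

variable {P : Fin n → ℂ} {L : List (Fin n × Fin n × Fin n)} {o : Fin n × Fin n × Fin n}

/-- the union of the closed regions -/
def cov (P : Fin n → ℂ) (L : List (Fin n × Fin n × Fin n)) (o : Fin n × Fin n × Fin n) : Set ℂ :=
  (⋃ T ∈ {T | T ∈ L}, Kt (P T.1) (P T.2.1) (P T.2.2)) ∪ Ko (P o.1) (P o.2.1) (P o.2.2)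

lemma cov_closed : IsClosed (cov P L o) :=
  ((L.finite_toSet).isClosed_biUnion fun _ _ => Kt_closed _ _ _).union (Ko_closed _ _ _)

lemma Kt_cov {p q r : Fin n} (h : Side L p q r) : Kt (P p) (P q) (P r) ⊆ cov P L o := by
  intro z hz
  left
  simp only [Set.mem_iUnion]
  rcases h with h | h | h
  · exact ⟨_, h, hz⟩
  · exact ⟨_, h, by rw [Kt_rot] at hz; exact hz⟩
  · exact ⟨_, h, by rw [Kt_rot, Kt_rot] at hz; exact hz⟩

lemma Ko_cov {p q r : Fin n} (h : OSide o p q r) : Ko (P p) (P q) (P r) ⊆ cov P L o := by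
  intro z hz
  right
  rcases h with h | h | h
  · rw [← h]; exact hz
  · rw [← h]; rw [Ko_rot] at hz; exact hz
  · rw [← h]; rw [Ko_rot, Ko_rot] at hz; exact hz

lemma mem_cov {z : ℂ} (h : z ∈ cov P L o) :
    (∃ p q r, Side L p q r ∧ z ∈ Kt (P p) (P q) (P r)) ∨
      (∃ p q r, OSide o p q r ∧ z ∈ Ko (P p) (P q) (P r)) := by
  rcases h with h | h
  · left
    simp only [Set.mem_iUnion] at h
    obtain ⟨T, hT, h⟩ := h
    exact ⟨_, _, _, Or.inl hT, h⟩
  · right
    exact ⟨_, _, _, Or.inl rfl, h⟩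

lemma seg_open {a b z : ℂ} (h : z ∈ segment ℝ a b) (h1 : z ≠ a) (h2 : z ≠ b) :
    z ∈ openSegment ℝ a b := mem_openSegment_of_ne_left_right (Ne.symm h1) (Ne.symm h2) h

/-- neighbourhoods of points of sides -/
lemma nhds_side (ht : Trg P L o) {p q r : Fin n} (h : Side L p q r) {z : ℂ}
    (hz : z ∈ openSegment ℝ (P p) (P q)) : cov P L o ∈ 𝓝 z := by
  rcases ht.nb p q r h with ⟨r', h'⟩ | ⟨r', h'⟩
  · have := near_two (ht.pos _ _ _ h) (ht.pos _ _ _ h') hz
    filter_upwards [this] with w hw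
    rcases hw with (hw | hw) | hw
    · exact Kt_cov h (Ot_sub _ _ _ hw)
    · exact Kt_cov h (seg_sub_Kt (ht.pos _ _ _ h) hw)
    · exact Kt_cov h' (Ot_sub _ _ _ hw)
  · have := near_out (d := P r') (ht.pos _ _ _ h) hz
    filter_upwards [this] with w hw
    rcases hw with (hw | hw) | hw
    · exact Kt_cov h (Ot_sub _ _ _ hw)
    · exact Kt_cov h (seg_sub_Kt (ht.pos _ _ _ h) hw)
    · exact Ko_cov h' (Oo_sub _ _ _ hw)

lemma nhds_cov (ht : Trg P L o) {z : ℂ} (hz : z ∈ cov P L o) (hP : z ∉ Set.range P) :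
    cov P L o ∈ 𝓝 z := by
  have hne : ∀ v, z ≠ P v := fun v hv => hP ⟨v, hv.symm⟩
  rcases mem_cov hz with ⟨p, q, r, h, hz⟩ | ⟨p, q, r, h, hz⟩
  · by_cases ho : z ∈ Ot (P p) (P q) (P r)
    · exact Filter.mem_of_superset ((Ot_open _ _ _).mem_nhds ho)
        ((Ot_sub _ _ _).trans (Kt_cov h))
    · rcases on_side (ht.pos _ _ _ h) hz ho with g | g | g
      · exact nhds_side ht h (seg_open g (hne _) (hne _))
      · exact nhds_side ht h.rot (seg_open g (hne _) (hne _))
      · exact nhds_side ht h.rot.rot (seg_open g (hne _) (hne _))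
  · by_cases ho : z ∈ Oo (P p) (P q) (P r)
    · exact Filter.mem_of_superset ((Oo_open _ _ _).mem_nhds ho)
        ((Oo_sub _ _ _).trans (Ko_cov h))
    · rcases on_side_out (ht.opos _ _ _ h) hz ho with g | g | g
      · obtain ⟨r', h'⟩ := ht.onb _ _ _ h
        exact nhds_side ht h' (seg_open g (hne _) (hne _))
      · obtain ⟨r', h'⟩ := ht.onb _ _ _ h.rot
        exact nhds_side ht h' (seg_open g (hne _) (hne _))
      · obtain ⟨r', h'⟩ := ht.onb _ _ _ h.rot.rot
        exact nhds_side ht h' (seg_open g (hne _) (hne _))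

theorem cov_all (ht : Trg P L o) {z : ℂ} (hP : z ∉ Set.range P) : z ∈ cov P L o := by
  have hconn : IsConnected (Set.range P)ᶜ := by
    apply Set.Countable.isConnected_compl_of_one_lt_rank
    · rw [Complex.rank_real_complex]; norm_num
    · exact (Set.finite_range P).countable
  have hsub : (Set.range P)ᶜ ⊆ interior (cov P L o) := by
    apply hconn.isPreconnected.subset_of_closure_inter_subset isOpen_interior
    · -- a point of the open segment of an outer side
      obtain ⟨r', h'⟩ := ht.onb o.1 o.2.1 o.2.2 (Or.inl rfl)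
      have hO : (Ot (P o.1) (P o.2.1) (P r')).Nonempty := by
        have hp := ht.pos _ _ _ h'
        refine ⟨(1 / 3 : ℝ) • P o.1 + (1 / 3 : ℝ) • P o.2.1 + (1 / 3 : ℝ) • P r', ?_, ?_, ?_⟩
        all_goals
          simp only [ori, Complex.add_re, Complex.add_im, Complex.real_smul, Complex.mul_re,
            Complex.mul_im, Complex.ofReal_re, Complex.ofReal_im] at hp ⊢
          nlinarith [hp]
      have hinf : (Ot (P o.1) (P o.2.1) (P r') \ Set.range P).Nonempty := by
        have hd : Dense (Set.range P)ᶜ :=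
          (Set.finite_range P).countable.dense_compl ℝ
        obtain ⟨x, hx1, hx2⟩ := hd.inter_open_nonempty _ (Ot_open _ _ _) hO
        exact ⟨x, hx1, hx2⟩
      obtain ⟨x, hx1, hx2⟩ := hinf
      refine ⟨x, hx2, ?_⟩
      exact interior_maximal ((Ot_sub _ _ _).trans (Kt_cov h')) (Ot_open _ _ _) hx1
    · rintro x ⟨hx1, hx2⟩
      have hx3 : x ∈ cov P L o :=
        closure_minimal interior_subset cov_closed hx1
      exact mem_interior_iff_mem_nhds.mpr (nhds_cov ht hx3 hx2)
  exact interior_subset (hsub hP)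

end Pool.Agent.Q239.OneP
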