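import Pool.Agent.Q239.OneP.Contain

/-!
# The 1-plane graph: 27 vertices, 20 triangular faces (one is the outer face), 15 crossed quadrangles
-/

set_option autoImplicit false

namespace Pool.Agent.Q239.OneP

/-- coordinates of the vertices -/
def PL : List (ℤ × ℤ) := [(-9, -7), (-39, -22), (0, 45), (1, 19), (-6, 8), (-22, -5), (-13, 0), (-15, 3), (-11, 10), (-22, -1), (-15, 8), (-11, 18), (-7, 20), (-7, -15), (5, -13), (3, -9), (39, -23), (14, -16), (19, -15), (10, -12), (19, -10), (14, -11), (7, 16), (18, -3), (6, -5), (8, 4), (2, 6)]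

/-- the inner triangular faces, counterclockwise -/
def TL : List (Fin 27 × Fin 27 × Fin 27) := [(4, 6, 0), (7, 5, 6), (9, 1, 5), (10, 7, 8), (11, 9, 10), (12, 8, 4), (2, 11, 12), (0, 1, 13), (14, 13, 17), (17, 16, 18), (20, 16, 23), (15, 14, 19), (19, 18, 21), (21, 20, 24), (15, 24, 0), (24, 25, 26), (25, 23, 22), (22, 2, 3), (26, 3, 4)]

/-- the quadrangles, counterclockwise -/
def QL : List (Fin 27 × Fin 27 × Fin 27 × Fin 27) := [(6, 5, 1, 0), (8, 7, 6, 4), (10, 9, 5, 7), (11, 2, 1, 9), (12, 11, 10, 8), (3, 2, 12, 4), (0, 13, 14, 15), (13, 1, 16, 17), (14, 17, 18, 19), (18, 16, 20, 21), (16, 2, 22, 23), (15, 19, 21, 24), (20, 23, 25, 24), (0, 24, 26, 4), (26, 25, 22, 3)]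

/-- the outer triangle, counterclockwise -/
def out : Fin 27 × Fin 27 × Fin 27 := (2, 1, 16)

/-- neighbourhoods as bit masks -/
def nbl : List (ℕ × ℕ) := [(0, 83943538), (1, 207461), (2, 12655130), (3, 104861716), (4, 83890637), (5, 1731), (6, 435), (7, 1904), (8, 7376), (9, 3238), (10, 7072), (11, 5894), (12, 3356), (13, 245763), (14, 958465), (15, 19423233), (16, 16130054), (17, 876546), (18, 3883008), (19, 19316736), (20, 61145088), (21, 18710528), (22, 109117452), (23, 55640068), (24, 112754705), (25, 97517576), (26, 54525977)]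

end Pool.Agent.Q239.OneP
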