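import Pool.Agent.Helper770.CrossingDefs

/-!
# 1-plane graphs, maximality, connectivity
-/

set_option autoImplicit false

namespace Pool.Agent.Q239.OneP

open Pool.Agent.Helper770.Crossing

/-- Two edges cross in a drawing: they are distinct and have a common interior point. -/
def Cross {V : Type*} {G : SimpleGraph V} (D : Drawing G) (e f : Sym2 V) : Prop :=
  e ∈ G.edgeSet ∧ f ∈ G.edgeSet ∧ e ≠ f ∧
    ∃ z, z ∈ D.arc e '' Set.Ioo (0 : ℝ) 1 ∧ z ∈ D.arc f '' Set.Ioo (0 : ℝ) 1

/-- A 1-plane graph: each edge is crossed by at most one other edge. -/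
def OnePlane {V : Type*} {G : SimpleGraph V} (D : Drawing G) : Prop :=
  ∀ e f g, Cross D e f → Cross D e g → f = g

/-- Maximality of a 1-plane graph: for every pair of non-adjacent vertices `u, v`, no drawing of
`G + uv` that keeps the points of all vertices and the arcs of all edges of `G` (and joins `u` and
`v` by an arbitrary new arc) is a 1-plane graph. -/
def Maximal {V : Type*} {G : SimpleGraph V} (D : Drawing G) : Prop :=
  ∀ u v, u ≠ v → ¬ G.Adj u v → ∀ D' : Drawing (G ⊔ SimpleGraph.edge u v),
    D'.pos = D.pos → (∀ e ∈ G.edgeSet, D'.arc e = D.arc e) → ¬ OnePlane D'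

/-- `G` is `k`-connected: it has more than `k` vertices and stays connected when fewer than `k`
vertices are removed. -/
def KConnected {V : Type*} [Fintype V] (k : ℕ) (G : SimpleGraph V) : Prop :=
  k < Fintype.card V ∧ ∀ S : Finset V, S.card < k → (G.induce {v | v ∉ S}).Connected

end Pool.Agent.Q239.OneP
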