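import Pool.Agent.Q239.OneP.Check
import Pool.Agent.Q239.OneP.Defs
import Pool.Agent.Q239.Hex.Geo

/-!
# The drawing is a maximal 1-plane graph with 15 crossings
-/

set_option autoImplicit false

namespace Pool.Agent.Q239.OneP

open Pool.Agent.Helper770.Crossing Pool.Agent.Helper770.Straight

/-- the graph -/
def Gr : SimpleGraph (Fin 27) where
  Adj u v := ad u v = true
  symm := ⟨fun u v h => by rw [ad_symm]; exact h⟩
  loopless := ⟨fun u h => by rw [ad_irrefl] at h; exact Bool.false_ne_true h⟩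

instance : DecidableRel Gr.Adj := fun u v => inferInstanceAs (Decidable (ad u v = true))

/-- positions -/
noncomputable def Pt (v : Fin 27) : ℂ := ⟨((ip v).1 : ℝ), ((ip v).2 : ℝ)⟩

lemma ori_Pt (a b c : Fin 27) : ori (Pt a) (Pt b) (Pt c) = (io a b c : ℝ) := by
  simp only [ori, Pt, io]; push_cast; ring

lemma genPos : GenPos Pt where
  inj u v h := by
    apply ip_inj
    have h1 := congrArg Complex.re h
    have h2 := congrArg Complex.im h
    simp only [Pt] at h1 h2
    exact Prod.ext (by exact_mod_cast h1) (by exact_mod_cast h2)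
  gen a b c h1 h2 h3 := by
    rw [ori_Pt]
    exact_mod_cast genpos a b c h1 h2 h3

/-- the drawing -/
noncomputable def Dr : Drawing Gr := straight Gr Pt genPos

lemma seg_image (a b : ℂ) : seg a b '' Set.Ioo (0 : ℝ) 1 = openSegment ℝ a b := by
  rw [openSegment_eq_image]
  apply Set.image_congr
  intro t _
  apply Complex.ext <;> simp [seg]

lemma arc_image (D : Drawing Gr) (hD : D = Dr) {p q : Fin 27} (e : Sym2 (Fin 27)) (he : e = s(p, q)) :
    D.arc e '' Set.Ioo (0 : ℝ) 1 = openSegment ℝ (Pt p) (Pt q) := by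
  subst hD
  change seg (Pt e.out.1) (Pt e.out.2) '' Set.Ioo (0 : ℝ) 1 = _
  rw [seg_image]
  have he' : s(e.out.1, e.out.2) = s(p, q) := by rw [← he]; exact e.out_eq
  rcases Sym2.eq_iff.mp he' with ⟨h1, h2⟩ | ⟨h1, h2⟩
  · rw [h1, h2]
  · rw [h1, h2, openSegment_symm]

lemma side_cases {L : List (Fin 27 × Fin 27 × Fin 27)} {p q r : Fin 27} (h : Side L p q r) :
    ∃ T ∈ L, (p = T.1 ∧ q = T.2.1 ∧ r = T.2.2) ∨ (p = T.2.1 ∧ q = T.2.2 ∧ r = T.1) ∨
      (p = T.2.2 ∧ q = T.1 ∧ r = T.2.1) := by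
  rcases h with h | h | h
  · exact ⟨_, h, Or.inl ⟨rfl, rfl, rfl⟩⟩
  · exact ⟨_, h, Or.inr (Or.inr ⟨rfl, rfl, rfl⟩)⟩
  · exact ⟨_, h, Or.inr (Or.inl ⟨rfl, rfl, rfl⟩)⟩

lemma apx_ne {L : List (Fin 27 × Fin 27 × Fin 27)} {p q : Fin 27}
    (h : (apx L p q).isEmpty = false) : ∃ r, Side L p q r := by
  rw [List.isEmpty_eq_false_iff_exists_mem] at h
  obtain ⟨r, hr⟩ := h
  exact ⟨r, mem_apx.mp hr⟩

lemma side_out {p q r : Fin 27} : Side [out] p q r ↔ OSide out p q r := by
  simp only [Side, OSide, List.mem_singleton]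

lemma io_rot (a b c : Fin 27) : io b c a = io a b c := by simp only [io]; ring

attribute [local irreducible] io ad apx ip Side OSide

/-- facts about triangles of a checked triangulation -/
lemma tri_facts {L : List (Fin 27 × Fin 27 × Fin 27)} (hL : okT L = true) {p q r : Fin 27}
    (h : Side L p q r) : 0 < io p q r ∧ ((∃ r', Side L q p r') ∨ (∃ r', OSide out p q r')) ∧
      ad p q = true ∧ ad q r = true ∧ ad r p = true ∧
      ∀ v, v = p ∨ v = q ∨ v = r ∨ io p q v < 0 ∨ io q r v < 0 ∨ io r p v < 0 := by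
  obtain ⟨T, hT, hc⟩ := side_cases h
  rw [okT, List.all_eq_true] at hL
  have h1 := hL T hT
  simp only [Bool.and_eq_true, Bool.or_eq_true, decide_eq_true_eq, Bool.not_eq_true',
    List.all_eq_true, List.mem_finRange, forall_const, beq_iff_eq] at h1
  obtain ⟨⟨⟨⟨⟨⟨⟨h0, n1⟩, n2⟩, n3⟩, a1⟩, a2⟩, a3⟩, hv⟩ := h1
  have rot := io_rot
  rcases hc with ⟨rfl, rfl, rfl⟩ | ⟨rfl, rfl, rfl⟩ | ⟨rfl, rfl, rfl⟩
  · refine ⟨h0, ?_, a1, a2, a3, fun v => ?_⟩
    · rcases n1 with n | n
      · exact Or.inl (apx_ne n)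
      · right; obtain ⟨r, hr⟩ := apx_ne n; exact ⟨r, side_out.mp hr⟩
    · have := hv v; tauto
  · refine ⟨by rw [rot]; exact h0, ?_, a2, a3, a1, fun v => ?_⟩
    · rcases n2 with n | n
      · exact Or.inl (apx_ne n)
      · right; obtain ⟨r, hr⟩ := apx_ne n; exact ⟨r, side_out.mp hr⟩
    · have := hv v; tauto
  · refine ⟨by rw [rot, rot]; exact h0, ?_, a3, a1, a2, fun v => ?_⟩
    · rcases n3 with n | n
      · exact Or.inl (apx_ne n)
      · right; obtain ⟨r, hr⟩ := apx_ne n; exact ⟨r, side_out.mp hr⟩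
    · have := hv v; tauto

lemma out_facts {L : List (Fin 27 × Fin 27 × Fin 27)} (hL : okO L = true) {p q r : Fin 27}
    (h : OSide out p q r) : 0 < io p q r ∧ (∃ r', Side L p q r') ∧
      ad p q = true ∧ ad q r = true ∧ ad r p = true ∧
      ∀ v, v = p ∨ v = q ∨ v = r ∨ (0 < io p q v ∧ 0 < io q r v ∧ 0 < io r p v) := by
  obtain ⟨T, hT, hc⟩ := side_cases (side_out.mpr h)
  rw [List.mem_singleton] at hT
  subst hT
  have h1 := hL
  simp only [okO, Bool.and_eq_true, Bool.or_eq_true, decide_eq_true_eq, Bool.not_eq_true',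
    List.all_eq_true, List.mem_finRange, forall_const, beq_iff_eq] at h1
  obtain ⟨⟨⟨⟨⟨⟨⟨h0, n1⟩, n2⟩, n3⟩, a1⟩, a2⟩, a3⟩, hv⟩ := h1
  have rot := io_rot
  rcases hc with ⟨rfl, rfl, rfl⟩ | ⟨rfl, rfl, rfl⟩ | ⟨rfl, rfl, rfl⟩
  · refine ⟨h0, apx_ne n1, a1, a2, a3, fun v => ?_⟩
    have := hv v; tauto
  · refine ⟨by rw [rot]; exact h0, apx_ne n2, a2, a3, a1, fun v => ?_⟩
    have := hv v; tauto
  · refine ⟨by rw [rot, rot]; exact h0, apx_ne n3, a3, a1, a2, fun v => ?_⟩
    have := hv v; tauto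

lemma trg {L : List (Fin 27 × Fin 27 × Fin 27)} (h1 : okT L = true) (h2 : okO L = true) :
    Trg Pt L out where
  pos p q r h := by rw [ori_Pt]; exact_mod_cast (tri_facts h1 h).1
  opos p q r h := by rw [ori_Pt]; exact_mod_cast (out_facts h2 h).1
  nb p q r h := (tri_facts h1 h).2.1
  onb p q r h := (out_facts h2 h).2.1

lemma vert_Kt {L : List (Fin 27 × Fin 27 × Fin 27)} (h1 : okT L = true) {p q r v : Fin 27}
    (h : Side L p q r) (hv : Pt v ∈ Kt (Pt p) (Pt q) (Pt r)) : v = p ∨ v = q ∨ v = r := by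
  obtain ⟨g1, g2, g3⟩ := hv
  rw [ori_Pt] at g1 g2 g3
  have g1' : 0 ≤ io p q v := by exact_mod_cast g1
  have g2' : 0 ≤ io q r v := by exact_mod_cast g2
  have g3' : 0 ≤ io r p v := by exact_mod_cast g3
  rcases (tri_facts h1 h).2.2.2.2.2 v with g | g | g | g | g | g
  · exact Or.inl g
  · exact Or.inr (Or.inl g)
  · exact Or.inr (Or.inr g)
  all_goals omega

lemma vert_Ko {L : List (Fin 27 × Fin 27 × Fin 27)} (h1 : okO L = true) {p q r v : Fin 27}
    (h : OSide out p q r) (hv : Pt v ∈ Ko (Pt p) (Pt q) (Pt r)) : v = p ∨ v = q ∨ v = r := by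
  rcases (out_facts h1 h).2.2.2.2.2 v with g | g | g | ⟨k1, k2, k3⟩
  · exact Or.inl g
  · exact Or.inr (Or.inl g)
  · exact Or.inr (Or.inr g)
  · exfalso
    rcases hv with g | g | g
    · rw [ori_Pt] at g
      have : io p q v ≤ 0 := by exact_mod_cast g
      omega
    · rw [ori_Pt] at g
      have : io q r v ≤ 0 := by exact_mod_cast g
      omega
    · rw [ori_Pt] at g
      have : io r p v ≤ 0 := by exact_mod_cast g
      omega

/-- vertices in the closure of a connected set that avoids all edges but `xy` -/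
lemma two_in {L : List (Fin 27 × Fin 27 × Fin 27)} (h1 : okT L = true) (h2 : okO L = true)
    {x y : Fin 27} {A : Set ℂ} (hA : Avoid Pt L out x y A) (hne : A.Nonempty) {u v : Fin 27}
    (hu : Pt u ∈ closure A) (hv : Pt v ∈ closure A) :
    (u = v ∨ ad u v = true) ∨ (u ∈ four L x y ∧ v ∈ four L x y) := by
  rcases loc (trg h1 h2) hA hne with ⟨p, q, r, hs, hK⟩ | ⟨p, q, r, hs, hK⟩ |
    ⟨p, q, r, r', hxy, hs, hs', hK⟩ | ⟨p, q, r, r', hxy, hs, hs', hK⟩
  · left
    obtain ⟨-, -, a1, a2, a3, -⟩ := tri_facts h1 hs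
    have b1 := a1; have b2 := a2; have b3 := a3
    rw [ad_symm] at b1 b2 b3
    rcases vert_Kt h1 hs (hK hu) with rfl | rfl | rfl <;>
      rcases vert_Kt h1 hs (hK hv) with rfl | rfl | rfl <;> tauto
  · left
    obtain ⟨-, -, a1, a2, a3, -⟩ := out_facts h2 hs
    have b1 := a1; have b2 := a2; have b3 := a3
    rw [ad_symm] at b1 b2 b3
    rcases vert_Ko h2 hs (hK hu) with rfl | rfl | rfl <;>
      rcases vert_Ko h2 hs (hK hv) with rfl | rfl | rfl <;> tauto
  · right
    have key : ∀ w, Pt w ∈ closure A → w ∈ four L x y := by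
      intro w hw
      have hw' : w = p ∨ w = q ∨ w = r ∨ w = r' := by
        rcases hK hw with g | g
        · rcases vert_Kt h1 hs g with g | g | g <;> tauto
        · rcases vert_Kt h1 hs' g with g | g | g <;> tauto
      have m1 := mem_apx.mpr hs
      have m2 := mem_apx.mpr hs'
      rcases Sym2.eq_iff.mp hxy with ⟨rfl, rfl⟩ | ⟨rfl, rfl⟩
      · rcases hw' with rfl | rfl | rfl | rfl <;> simp [four, m1, m2]
      · rcases hw' with rfl | rfl | rfl | rfl <;> simp [four, m1, m2]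
    exact ⟨key u hu, key v hv⟩
  · right
    have key : ∀ w, Pt w ∈ closure A → w ∈ four L x y := by
      intro w hw
      have hw' : w = p ∨ w = q ∨ w = r ∨ w = r' := by
        rcases hK hw with g | g
        · rcases vert_Kt h1 hs g with g | g | g <;> tauto
        · rcases vert_Ko h2 hs' g with g | g | g <;> tauto
      have m1 := mem_apx.mpr hs
      have m2 := mem_apx.mpr (side_out.mpr hs')
      rcases Sym2.eq_iff.mp hxy with ⟨rfl, rfl⟩ | ⟨rfl, rfl⟩
      · rcases hw' with rfl | rfl | rfl | rfl <;> simp [four, m1, m2]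
      · rcases hw' with rfl | rfl | rfl | rfl <;> simp [four, m1, m2]
    exact ⟨key u hu, key v hv⟩

end Pool.Agent.Q239.OneP
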