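import Pool.Agent.Q239.OneP.Draw

/-!
# One-planarity, the number of crossings, maximality
-/

set_option autoImplicit false

namespace Pool.Agent.Q239.OneP

open Pool.Agent.Helper770.Crossing Pool.Agent.Helper770.Straight

/-- first diagonal -/
def D1 (q : Fin 27 × Fin 27 × Fin 27 × Fin 27) : Sym2 (Fin 27) := s(q.1, q.2.2.1)
/-- second diagonal -/
def D2 (q : Fin 27 × Fin 27 × Fin 27 × Fin 27) : Sym2 (Fin 27) := s(q.2.1, q.2.2.2)

lemma dpair_iff (a b c d : Fin 27) : dpair a b c d = true ↔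
    ∃ q ∈ QL, (s(a, b) = D1 q ∧ s(c, d) = D2 q) ∨ (s(a, b) = D2 q ∧ s(c, d) = D1 q) := by
  simp only [dpair, List.any_eq_true, Bool.or_eq_true, Bool.and_eq_true, beq_iff_eq, D1, D2,
    Sym2.eq_iff]
  constructor
  · rintro ⟨q, hq, h⟩
    refine ⟨q, hq, ?_⟩
    rcases h with ⟨h1, h2⟩ | ⟨h1, h2⟩
    · left
      constructor
      · rcases h1 with ⟨h, h'⟩ | ⟨h, h'⟩
        · exact Or.inl ⟨h.symm, h'.symm⟩
        · exact Or.inr ⟨h'.symm, h.symm⟩
      · rcases h2 with ⟨h, h'⟩ | ⟨h, h'⟩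
        · exact Or.inl ⟨h.symm, h'.symm⟩
        · exact Or.inr ⟨h'.symm, h.symm⟩
    · right
      constructor
      · rcases h2 with ⟨h, h'⟩ | ⟨h, h'⟩
        · exact Or.inl ⟨h.symm, h'.symm⟩
        · exact Or.inr ⟨h'.symm, h.symm⟩
      · rcases h1 with ⟨h, h'⟩ | ⟨h, h'⟩
        · exact Or.inl ⟨h.symm, h'.symm⟩
        · exact Or.inr ⟨h'.symm, h.symm⟩
  · rintro ⟨q, hq, h⟩
    refine ⟨q, hq, ?_⟩
    rcases h with ⟨h1, h2⟩ | ⟨h1, h2⟩
    · left
      constructor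
      · rcases h1 with ⟨h, h'⟩ | ⟨h, h'⟩
        · exact Or.inl ⟨h.symm, h'.symm⟩
        · exact Or.inr ⟨h'.symm, h.symm⟩
      · rcases h2 with ⟨h, h'⟩ | ⟨h, h'⟩
        · exact Or.inl ⟨h.symm, h'.symm⟩
        · exact Or.inr ⟨h'.symm, h.symm⟩
    · right
      constructor
      · rcases h2 with ⟨h, h'⟩ | ⟨h, h'⟩
        · exact Or.inl ⟨h.symm, h'.symm⟩
        · exact Or.inr ⟨h'.symm, h.symm⟩
      · rcases h1 with ⟨h, h'⟩ | ⟨h, h'⟩
        · exact Or.inl ⟨h.symm, h'.symm⟩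
        · exact Or.inr ⟨h'.symm, h.symm⟩

lemma mem_EL {a b : Fin 27} (h : ad a b = true) (hab : a < b) : (a, b) ∈ EL := by
  rw [EL, List.mem_flatMap]
  refine ⟨a, List.mem_finRange _, ?_⟩
  rw [List.mem_map]
  refine ⟨b, ?_, rfl⟩
  rw [List.mem_filter]
  exact ⟨List.mem_finRange _, by simp [h, hab]⟩

lemma io_swap (a b c : Fin 27) : io b a c = - io a b c := by simp only [io]; ring

lemma dp_lt {a b c d : Fin 27} (hab : ad a b = true) (hcd : ad c d = true) (h1 : a < b)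
    (h2 : c < d) (n1 : a ≠ c) (n2 : a ≠ d) (n3 : b ≠ c) (n4 : b ≠ d)
    (s1 : io a b c * io a b d < 0) (s2 : io c d a * io c d b < 0) : dpair a b c d = true := by
  have h := crosses
  rw [List.all_eq_true] at h
  have h' := h _ (mem_EL hab h1)
  rw [List.all_eq_true] at h'
  have h'' := h' _ (mem_EL hcd h2)
  simp only [Bool.or_eq_true, beq_iff_eq, decide_eq_true_eq] at h''
  rcases h'' with (((((g | g) | g) | g) | g) | g) | g
  · exact absurd g n1
  · exact absurd g n2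
  · exact absurd g n3
  · exact absurd g n4
  · exact g
  · exact absurd g (not_lt.mpr s1.le)
  · exact absurd g (not_lt.mpr s2.le)

lemma dp_any {a b c d : Fin 27} (hab : ad a b = true) (hcd : ad c d = true) (hne : a ≠ b)
    (hne' : c ≠ d) (n1 : a ≠ c) (n2 : a ≠ d) (n3 : b ≠ c) (n4 : b ≠ d)
    (s1 : io a b c * io a b d < 0) (s2 : io c d a * io c d b < 0) :
    ∃ q ∈ QL, (s(a, b) = D1 q ∧ s(c, d) = D2 q) ∨ (s(a, b) = D2 q ∧ s(c, d) = D1 q) := by
  rcases lt_or_gt_of_ne hne with h1 | h1 <;> rcases lt_or_gt_of_ne hne' with h2 | h2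
  · exact (dpair_iff _ _ _ _).mp (dp_lt hab hcd h1 h2 n1 n2 n3 n4 s1 s2)
  · have := (dpair_iff _ _ _ _).mp (dp_lt hab (by rw [ad_symm]; exact hcd) h1 h2 n2 n1 n4 n3
      (by linarith) (by rw [io_swap, io_swap c d b]; linarith))
    rw [Sym2.eq_swap (a := d)] at this
    exact this
  · have := (dpair_iff _ _ _ _).mp (dp_lt (by rw [ad_symm]; exact hab) hcd h1 h2 n3 n4 n1 n2
      (by rw [io_swap, io_swap a b d]; linarith) (by linarith))
    rw [Sym2.eq_swap (a := b)] at this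
    exact this
  · have := (dpair_iff _ _ _ _).mp (dp_lt (by rw [ad_symm]; exact hab) (by rw [ad_symm]; exact hcd)
      h1 h2 n4 n3 n2 n1 (by rw [io_swap, io_swap a b c]; linarith)
      (by rw [io_swap, io_swap c d a]; linarith))
    rw [Sym2.eq_swap (a := b), Sym2.eq_swap (a := d)] at this
    exact this

/-- the crossing pairs of the drawing -/
lemma crossing_pair {x : Sym2 (Sym2 (Fin 27)) × ℂ} (hx : x ∈ Dr.crossings) :
    ∃ q ∈ QL, x.1 = s(D1 q, D2 q) := by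
  obtain ⟨a, b, c, d, hab, hcd, n0, n1, n2, n3, n4, n5, he, s1, s2⟩ := crossing_form genPos hx
  rw [ori_Pt, ori_Pt] at s1 s2
  obtain ⟨q, hq, h | h⟩ := dp_any hab hcd n0 n5 n1 n2 n3 n4 (by exact_mod_cast s1)
    (by exact_mod_cast s2)
  · exact ⟨q, hq, by rw [he, h.1, h.2]⟩
  · exact ⟨q, hq, by rw [he, h.1, h.2]; exact Sym2.eq_swap⟩

lemma crossing_exists {q : Fin 27 × Fin 27 × Fin 27 × Fin 27} (hq : q ∈ QL) :
    ∃ z, (s(D1 q, D2 q), z) ∈ Dr.crossings ∧ Cross Dr (D1 q) (D2 q) := by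
  have h := quads
  rw [List.all_eq_true] at h
  have h' := h q hq
  simp only [Bool.and_eq_true, decide_eq_true_eq] at h'
  obtain ⟨⟨⟨h1, h2⟩, h3⟩, h4⟩ := h'
  have c1 : Hex.ori (Pt q.1) (Pt q.2.2.1) (Pt q.2.1) * Hex.ori (Pt q.1) (Pt q.2.2.1) (Pt q.2.2.2) < 0 := by
    have e : ∀ a b c : Fin 27, Hex.ori (Pt a) (Pt b) (Pt c) = (io a b c : ℝ) := by
      intro a b c
      simp only [Hex.ori, Hex.cr, Pt, io, Complex.sub_re, Complex.sub_im]; push_cast; ring
    rw [e, e]; exact_mod_cast h3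
  have c2 : Hex.ori (Pt q.2.1) (Pt q.2.2.2) (Pt q.1) * Hex.ori (Pt q.2.1) (Pt q.2.2.2) (Pt q.2.2.1) < 0 := by
    have e : ∀ a b c : Fin 27, Hex.ori (Pt a) (Pt b) (Pt c) = (io a b c : ℝ) := by
      intro a b c
      simp only [Hex.ori, Hex.cr, Pt, io, Complex.sub_re, Complex.sub_im]; push_cast; ring
    rw [e, e]; exact_mod_cast h4
  obtain ⟨z, z1, z2⟩ := Hex.cross_exists c1 c2
  have n1 : Hex.ori (Pt q.1) (Pt q.2.2.1) (Pt q.2.1) ≠ 0 := by intro h0; rw [h0] at c1; simp at c1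
  have n2 : Hex.ori (Pt q.1) (Pt q.2.2.1) (Pt q.2.2.2) ≠ 0 := by intro h0; rw [h0] at c1; simp at c1
  have n3 : Hex.ori (Pt q.2.1) (Pt q.2.2.2) (Pt q.1) ≠ 0 := by intro h0; rw [h0] at c2; simp at c2
  have n4 : Hex.ori (Pt q.2.1) (Pt q.2.2.2) (Pt q.2.2.1) ≠ 0 := by intro h0; rw [h0] at c2; simp at c2
  have o1 := Hex.cross_open n3 n4 z1 z2
  have o2 := Hex.cross_open n1 n2 z2 z1
  have hne : D1 q ≠ D2 q := by
    intro h0
    rcases Sym2.eq_iff.mp h0 with ⟨h5, -⟩ | ⟨h5, -⟩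
    · rw [h5] at n3; simp [Hex.ori, Hex.cr] at n3
    · rw [h5] at n3
      apply n3
      simp only [Hex.ori, Hex.cr]; ring
  have i1 : z ∈ Dr.arc (D1 q) '' Set.Ioo (0 : ℝ) 1 := by
    rw [arc_image Dr rfl (D1 q) rfl]; exact o1
  have i2 : z ∈ Dr.arc (D2 q) '' Set.Ioo (0 : ℝ) 1 := by
    rw [arc_image Dr rfl (D2 q) rfl]; exact o2
  exact ⟨z, ⟨D1 q, h1, D2 q, h2, hne, rfl, i1, i2⟩, ⟨h1, h2, hne, z, i1, i2⟩⟩

lemma cross_cases {e f : Sym2 (Fin 27)} (h : Cross Dr e f) :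
    ∃ q ∈ QL, (e = D1 q ∧ f = D2 q) ∨ (e = D2 q ∧ f = D1 q) := by
  obtain ⟨he, hf, hne, z, h1, h2⟩ := h
  obtain ⟨q, hq, hx⟩ := crossing_pair (x := (s(e, f), z)) ⟨e, he, f, hf, hne, rfl, h1, h2⟩
  exact ⟨q, hq, Sym2.eq_iff.mp hx⟩

theorem uniq : ∀ q ∈ QL, ∀ q' ∈ QL, (D1 q = D1 q' → D2 q = D2 q') ∧
    (D1 q = D2 q' → D2 q = D1 q') ∧ (D2 q = D1 q' → D1 q = D2 q') ∧
    (D2 q = D2 q' → D1 q = D1 q') := by decide +kernel

theorem onePlane : OnePlane Dr := by
  intro e f g hf hg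
  obtain ⟨q, hq, h⟩ := cross_cases hf
  obtain ⟨q', hq', h'⟩ := cross_cases hg
  obtain ⟨u1, u2, u3, u4⟩ := uniq q hq q' hq'
  rcases h with ⟨h1, h2⟩ | ⟨h1, h2⟩ <;> rcases h' with ⟨h1', h2'⟩ | ⟨h1', h2'⟩
  · rw [h2, h2', u1 (h1.symm.trans h1')]
  · rw [h2, h2', u2 (h1.symm.trans h1')]
  · rw [h2, h2', u3 (h1.symm.trans h1')]
  · rw [h2, h2', u4 (h1.symm.trans h1')]

theorem pairs_card : ((QL.map (fun q => s(D1 q, D2 q))).toFinset).card = 15 := by decide +kernel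

theorem crossings_card : Dr.crossings.ncard = 15 := by
  have himg : Prod.fst '' Dr.crossings =
      (((QL.map (fun q => s(D1 q, D2 q))).toFinset : Finset (Sym2 (Sym2 (Fin 27)))) :
        Set (Sym2 (Sym2 (Fin 27)))) := by
    ext p
    simp only [Set.mem_image, List.coe_toFinset, List.mem_map, Set.mem_ofPred_eq]
    constructor
    · rintro ⟨x, hx, rfl⟩
      obtain ⟨q, hq, h⟩ := crossing_pair hx
      exact ⟨q, hq, h.symm⟩
    · rintro ⟨q, hq, rfl⟩
      obtain ⟨z, hz, -⟩ := crossing_exists hq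
      exact ⟨_, hz, rfl⟩
  have hinj : Set.InjOn Prod.fst Dr.crossings := by
    rintro ⟨p, z⟩ hx ⟨p', z'⟩ hx' hpp
    simp only at hpp
    subst hpp
    obtain ⟨e, he, f, hf, hne, hp, h1, h2⟩ := hx
    obtain ⟨e', he', f', hf', hne', hp', h1', h2'⟩ := hx'
    simp only at hp hp' h1 h2 h1' h2'
    have hee : s(e, f) = s(e', f') := hp.symm.trans hp'
    rcases Sym2.eq_iff.mp hee with ⟨rfl, rfl⟩ | ⟨rfl, rfl⟩
    · rw [pt_unique genPos he hf hne h1 h2 h1' h2']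
    · rw [pt_unique genPos he hf hne h1 h2 h2' h1']
  rw [← Set.InjOn.ncard_image hinj, himg, Set.ncard_coe_finset, pairs_card]

theorem edges_card : Gr.edgeSet.ncard = 90 := by
  have h := Gr.sum_degrees_eq_twice_card_edges
  have h2 : ∑ v : Fin 27, Gr.degree v = 180 := by decide +kernel
  rw [h2] at h
  rw [← SimpleGraph.coe_edgeFinset, Set.ncard_coe_finset]
  omega

lemma dg_iff (x y : Fin 27) : dg x y = true → ∃ q ∈ QL, s(x, y) = D1 q ∨ s(x, y) = D2 q := by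
  intro h
  simp only [dg, List.any_eq_true, Bool.or_eq_true, Bool.and_eq_true, beq_iff_eq] at h
  obtain ⟨q, hq, h⟩ := h
  refine ⟨q, hq, ?_⟩
  rcases h with ((⟨h, h'⟩ | ⟨h, h'⟩) | ⟨h, h'⟩) | ⟨h, h'⟩
  · left; rw [D1, h, h']
  · left; rw [D1, h, h']; exact Sym2.eq_swap
  · right; rw [D2, h, h']
  · right; rw [D2, h, h']; exact Sym2.eq_swap

theorem maximal : Maximal Dr := by
  intro u v huv hnadj D' hpos harc hone
  have hmem : s(u, v) ∈ (Gr ⊔ SimpleGraph.edge u v).edgeSet := by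
    rw [SimpleGraph.mem_edgeSet, SimpleGraph.sup_adj, SimpleGraph.edge_adj]
    exact Or.inr ⟨Or.inl ⟨rfl, rfl⟩, huv⟩
  have hnot : s(u, v) ∉ Gr.edgeSet := fun h => hnadj h
  have hsub : ∀ e ∈ Gr.edgeSet, e ∈ (Gr ⊔ SimpleGraph.edge u v).edgeSet := by
    intro e he
    exact SimpleGraph.edgeSet_mono le_sup_left he
  have hP : D'.pos = Pt := hpos
  set A : Set ℂ := D'.arc s(u, v) '' Set.Ioo (0 : ℝ) 1 with hA
  have hcont := D'.arc_continuousOn _ hmem
  have hconn : IsPreconnected A :=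
    isPreconnected_Ioo.image _ (hcont.mono Set.Ioo_subset_Icc_self)
  have hne : A.Nonempty := ⟨_, Set.mem_image_of_mem _ (⟨by norm_num, by norm_num⟩ :
    (1 / 2 : ℝ) ∈ Set.Ioo (0 : ℝ) 1)⟩
  have hvert : ∀ w, Pt w ∉ A := by
    rintro w ⟨t, ht, h⟩
    exact D'.arc_avoids _ hmem t ht w (by rw [h, hP])
  -- the closure contains the ends
  have hclos : D'.arc s(u, v) '' Set.Icc (0 : ℝ) 1 ⊆ closure A := by
    have : Set.Icc (0 : ℝ) 1 = closure (Set.Ioo (0 : ℝ) 1) := by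
      rw [closure_Ioo (by norm_num)]
    rw [this] at hcont ⊢
    exact hcont.image_closure
  have hends : Pt u ∈ closure A ∧ Pt v ∈ closure A := by
    have h0 : D'.arc s(u, v) 0 ∈ closure A := hclos ⟨0, by norm_num, rfl⟩
    have h1 : D'.arc s(u, v) 1 ∈ closure A := hclos ⟨1, by norm_num, rfl⟩
    rcases D'.arc_ends u v hmem with ⟨g0, g1⟩ | ⟨g0, g1⟩
    · rw [g0, hP] at h0; rw [g1, hP] at h1; exact ⟨h0, h1⟩
    · rw [g0, hP] at h0; rw [g1, hP] at h1; exact ⟨h1, h0⟩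
  -- the edge that is crossed
  have hcross : ∀ p q : Fin 27, ad p q = true → ¬ Disjoint A (segment ℝ (Pt p) (Pt q)) →
      Cross D' s(u, v) s(p, q) := by
    intro p q hpq hd
    rw [Set.not_disjoint_iff] at hd
    obtain ⟨z, hz1, hz2⟩ := hd
    have hzo : z ∈ openSegment ℝ (Pt p) (Pt q) :=
      seg_open hz2 (fun h => hvert p (h ▸ hz1)) (fun h => hvert q (h ▸ hz1))
    have hE : s(p, q) ∈ Gr.edgeSet := hpq
    refine ⟨hmem, hsub _ hE, fun h => hnot (h ▸ hE), z, hz1, ?_⟩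
    rw [harc _ hE]
    rw [arc_image Dr rfl s(p, q) rfl]
    exact hzo
  obtain ⟨x, y, hxy, hdg, hav⟩ : ∃ x y : Fin 27, ad x y = true ∧ dg x y = false ∧
      ∀ p q, ad p q = true → s(p, q) ≠ s(x, y) → Disjoint A (segment ℝ (Pt p) (Pt q)) := by
    by_cases hex : ∃ p q : Fin 27, ad p q = true ∧ ¬ Disjoint A (segment ℝ (Pt p) (Pt q))
    · obtain ⟨x, y, hxy, hd⟩ := hex
      refine ⟨x, y, hxy, ?_, ?_⟩
      · by_contra hg
        rw [Bool.not_eq_false] at hg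
        have hE : s(x, y) ∈ Gr.edgeSet := hxy
        have hc := hcross x y hxy hd
        have hc' : Cross D' s(x, y) s(u, v) := by
          obtain ⟨a1, a2, a3, z, a4, a5⟩ := hc
          exact ⟨a2, a1, a3.symm, z, a5, a4⟩
        have hlift : ∀ f, Cross Dr s(x, y) f → Cross D' s(x, y) f := by
          rintro f ⟨a1, a2, a3, z, a4, a5⟩
          exact ⟨hsub _ a1, hsub _ a2, a3, z, by rw [harc _ a1]; exact a4,
            by rw [harc _ a2]; exact a5⟩
        obtain ⟨q, hq, h | h⟩ := dg_iff x y hg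
        · obtain ⟨z, -, hcr⟩ := crossing_exists hq
          rw [← h] at hcr
          have := hone _ _ _ hc' (hlift _ hcr)
          apply hnot
          rw [this]
          exact hcr.2.1
        · obtain ⟨z, -, hcr⟩ := crossing_exists hq
          have hcr' : Cross Dr s(x, y) (D1 q) := by
            rw [h]
            obtain ⟨a1, a2, a3, z, a4, a5⟩ := hcr
            exact ⟨a2, a1, a3.symm, z, a5, a4⟩
          have := hone _ _ _ hc' (hlift _ hcr')
          apply hnot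
          rw [this]
          exact hcr'.2.1
      · intro p q hpq hne
        by_contra hd'
        exact hne (hone _ _ _ (hcross p q hpq hd') (hcross x y hxy hd))
    · push Not at hex
      have h0 : ∃ x y : Fin 27, ad x y = true ∧ dg x y = false := by decide +kernel
      obtain ⟨x, y, h1, h2⟩ := h0
      exact ⟨x, y, h1, h2, fun p q hpq _ => hex p q hpq⟩
  have hA1 : Avoid Pt T1 out x y A := ⟨hconn, hvert,
    fun p q r h hn => hav p q (tri_facts okT1 h).2.2.1 hn,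
    fun p q r h hn => hav p q (out_facts okO1 h).2.2.1 hn⟩
  have hA2 : Avoid Pt T2 out x y A := ⟨hconn, hvert,
    fun p q r h hn => hav p q (tri_facts okT2 h).2.2.1 hn,
    fun p q r h hn => hav p q (out_facts okO2 h).2.2.1 hn⟩
  have r1 := two_in okT1 okO1 hA1 hne hends.1 hends.2
  have r2 := two_in okT2 okO2 hA2 hne hends.1 hends.2
  have hbad : ¬ (u = v ∨ ad u v = true) := by
    rintro (h | h)
    · exact huv h
    · exact hnadj h
  obtain ⟨a1, a2⟩ := r1.resolve_left hbad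
  obtain ⟨b1, b2⟩ := r2.resolve_left hbad
  have hf := final x y hxy hdg
  rw [List.all_eq_true] at hf
  have hf1 := hf u a1
  rw [List.all_eq_true] at hf1
  have hf2 := hf1 v a2
  simp only [Bool.or_eq_true, Bool.not_eq_true', beq_iff_eq] at hf2
  rcases hf2 with ((h | h) | h) | h
  · rw [← Bool.not_eq_true, List.contains_iff_mem] at h; exact h b1
  · rw [← Bool.not_eq_true, List.contains_iff_mem] at h; exact h b2
  · exact huv h
  · exact hnadj h

end Pool.Agent.Q239.OneP
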