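import Pool.Agent.Helper770.Straight

/-!
# Straight-line triangulations: a connected set avoiding all sides but one
-/

set_option autoImplicit false

namespace Pool.Agent.Q239.OneP

open Pool.Agent.Helper770.Straight Topology

/-- closed triangle -/
def Kt (a b c : ℂ) : Set ℂ := {z | 0 ≤ ori a b z ∧ 0 ≤ ori b c z ∧ 0 ≤ ori c a z}
/-- open triangle -/
def Ot (a b c : ℂ) : Set ℂ := {z | 0 < ori a b z ∧ 0 < ori b c z ∧ 0 < ori c a z}
/-- closed exterior -/
def Ko (a b c : ℂ) : Set ℂ := {z | ori a b z ≤ 0 ∨ ori b c z ≤ 0 ∨ ori c a z ≤ 0}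
/-- open exterior -/
def Oo (a b c : ℂ) : Set ℂ := {z | ori a b z < 0 ∨ ori b c z < 0 ∨ ori c a z < 0}

lemma ori_cont (a b : ℂ) : Continuous (ori a b) := by
  unfold ori
  fun_prop

lemma Kt_closed (a b c : ℂ) : IsClosed (Kt a b c) :=
  (isClosed_le continuous_const (ori_cont a b)).inter
    ((isClosed_le continuous_const (ori_cont b c)).inter
      (isClosed_le continuous_const (ori_cont c a)))

lemma Ot_open (a b c : ℂ) : IsOpen (Ot a b c) :=
  (isOpen_lt continuous_const (ori_cont a b)).inter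
    ((isOpen_lt continuous_const (ori_cont b c)).inter
      (isOpen_lt continuous_const (ori_cont c a)))

lemma Ko_closed (a b c : ℂ) : IsClosed (Ko a b c) :=
  (isClosed_le (ori_cont a b) continuous_const).union
    ((isClosed_le (ori_cont b c) continuous_const).union
      (isClosed_le (ori_cont c a) continuous_const))

lemma Oo_open (a b c : ℂ) : IsOpen (Oo a b c) :=
  (isOpen_lt (ori_cont a b) continuous_const).union
    ((isOpen_lt (ori_cont b c) continuous_const).union
      (isOpen_lt (ori_cont c a) continuous_const))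

lemma Kt_rot (a b c : ℂ) : Kt a b c = Kt b c a := by
  ext z; simp only [Kt, Set.mem_ofPred_eq]; tauto
lemma Ot_rot (a b c : ℂ) : Ot a b c = Ot b c a := by
  ext z; simp only [Ot, Set.mem_ofPred_eq]; tauto
lemma Ko_rot (a b c : ℂ) : Ko a b c = Ko b c a := by
  ext z; simp only [Ko, Set.mem_ofPred_eq]; tauto
lemma Oo_rot (a b c : ℂ) : Oo a b c = Oo b c a := by
  ext z; simp only [Oo, Set.mem_ofPred_eq]; tauto

lemma Ot_sub (a b c : ℂ) : Ot a b c ⊆ Kt a b c := fun _ h => ⟨h.1.le, h.2.1.le, h.2.2.le⟩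

lemma Oo_sub (a b c : ℂ) : Oo a b c ⊆ Ko a b c := by
  rintro z (h | h | h)
  · exact Or.inl h.le
  · exact Or.inr (Or.inl h.le)
  · exact Or.inr (Or.inr h.le)

lemma ori_sum (a b c z : ℂ) : ori a b z + ori b c z + ori c a z = ori a b c := by
  simp only [ori]; ring

lemma side_mem {a b c z : ℂ} (h : 0 < ori a b c) (h0 : ori a b z = 0) (h1 : 0 ≤ ori b c z)
    (h2 : 0 ≤ ori c a z) : z ∈ segment ℝ a b := by
  have hs := ori_sum a b c z
  rw [h0, zero_add] at hs
  refine ⟨ori b c z / ori a b c, ori c a z / ori a b c, div_nonneg h1 h.le, div_nonneg h2 h.le,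
    by rw [← add_div, hs, div_self h.ne'], ?_⟩
  have hne := h.ne'
  apply Complex.ext
  · simp only [Complex.add_re, Complex.real_smul, Complex.mul_re, Complex.ofReal_re,
      Complex.ofReal_im, zero_mul, sub_zero]
    rw [div_mul_eq_mul_div, div_mul_eq_mul_div, ← add_div, div_eq_iff hne]
    have h0' := h0
    simp only [ori] at h0' ⊢
    linear_combination (-c.re) * h0'
  · simp only [Complex.add_im, Complex.real_smul, Complex.mul_im, Complex.ofReal_re,
      Complex.ofReal_im, zero_mul, add_zero]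
    rw [div_mul_eq_mul_div, div_mul_eq_mul_div, ← add_div, div_eq_iff hne]
    have h0' := h0
    simp only [ori] at h0' ⊢
    linear_combination (-c.im) * h0'

lemma on_side {a b c z : ℂ} (h : 0 < ori a b c) (hz : z ∈ Kt a b c) (hn : z ∉ Ot a b c) :
    z ∈ segment ℝ a b ∨ z ∈ segment ℝ b c ∨ z ∈ segment ℝ c a := by
  obtain ⟨h1, h2, h3⟩ := hz
  rcases h1.lt_or_eq with g1 | g1
  · rcases h2.lt_or_eq with g2 | g2
    · rcases h3.lt_or_eq with g3 | g3
      · exact absurd ⟨g1, g2, g3⟩ hn
      · right; right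
        exact side_mem (a := c) (b := a) (c := b) (by rw [← ori_rot]; exact h) g3.symm h1 h2
    · right; left
      exact side_mem (a := b) (b := c) (c := a) (by rw [ori_rot]; exact h) g2.symm h3 h1
  · left
    exact side_mem h g1.symm h2 h3

lemma on_side_out {a b c z : ℂ} (h : 0 < ori a b c) (hz : z ∈ Ko a b c) (hn : z ∉ Oo a b c) :
    z ∈ segment ℝ a b ∨ z ∈ segment ℝ b c ∨ z ∈ segment ℝ c a := by
  have h' : 0 ≤ ori a b z ∧ 0 ≤ ori b c z ∧ 0 ≤ ori c a z := by
    refine ⟨?_, ?_, ?_⟩ <;> by_contra hc <;> push Not at hc <;> apply hn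
    · exact Or.inl hc
    · exact Or.inr (Or.inl hc)
    · exact Or.inr (Or.inr hc)
  apply on_side h h'
  rintro ⟨g1, g2, g3⟩
  rcases hz with g | g | g <;> linarith

lemma open_pos {a b c z : ℂ} (h : 0 < ori a b c) (hz : z ∈ openSegment ℝ a b) :
    ori a b z = 0 ∧ 0 < ori b c z ∧ 0 < ori c a z := by
  obtain ⟨s, t, hs, ht, hst, rfl⟩ := hz
  have hs' : s = 1 - t := by linarith
  subst hs'
  refine ⟨?_, ?_, ?_⟩
  · simp only [ori, Complex.add_re, Complex.add_im, Complex.real_smul, Complex.mul_re,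
      Complex.mul_im, Complex.ofReal_re, Complex.ofReal_im]
    ring
  · have : ori b c (((1 - t : ℝ)) • a + t • b) = (1 - t) * ori a b c := by
      simp only [ori, Complex.add_re, Complex.add_im, Complex.real_smul, Complex.mul_re,
        Complex.mul_im, Complex.ofReal_re, Complex.ofReal_im]
      ring
    rw [this]; exact mul_pos hs h
  · have : ori c a (((1 - t : ℝ)) • a + t • b) = t * ori a b c := by
      simp only [ori, Complex.add_re, Complex.add_im, Complex.real_smul, Complex.mul_re,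
        Complex.mul_im, Complex.ofReal_re, Complex.ofReal_im]
      ring
    rw [this]; exact mul_pos ht h

/-- a point on a line that is near a point of an open segment of the line is in the segment -/
lemma near_side {a b c z : ℂ} (h : 0 < ori a b c) (hz : z ∈ openSegment ℝ a b) :
    ∀ᶠ w in 𝓝 z, (0 < ori a b w → w ∈ Ot a b c) ∧ (ori a b w = 0 → w ∈ openSegment ℝ a b) := by
  obtain ⟨-, h1, h2⟩ := open_pos h hz
  have e1 : ∀ᶠ w in 𝓝 z, 0 < ori b c w :=
    (isOpen_lt continuous_const (ori_cont b c)).mem_nhds h1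
  have e2 : ∀ᶠ w in 𝓝 z, 0 < ori c a w :=
    (isOpen_lt continuous_const (ori_cont c a)).mem_nhds h2
  filter_upwards [e1, e2] with w g1 g2
  refine ⟨fun g => ⟨g, g1, g2⟩, fun g => ?_⟩
  have hs := side_mem h g g1.le g2.le
  refine mem_openSegment_of_ne_left_right ?_ ?_ hs
  · rintro rfl
    have : ori c a a = 0 := ori_self₂ _ _
    linarith
  · rintro rfl
    have : ori b c b = 0 := ori_self₁ _ _
    linarith

lemma near_two {a b c d z : ℂ} (h : 0 < ori a b c) (h' : 0 < ori b a d)
    (hz : z ∈ openSegment ℝ a b) :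
    ∀ᶠ w in 𝓝 z, w ∈ Ot a b c ∪ openSegment ℝ a b ∪ Ot b a d := by
  have e1 := near_side h hz
  have e2 := near_side h' (by rw [openSegment_symm]; exact hz)
  filter_upwards [e1, e2] with w g1 g2
  rcases lt_trichotomy (ori a b w) 0 with g | g | g
  · right
    apply g2.1
    rw [ori_swap]; linarith
  · left; right; exact g1.2 g
  · left; left; exact g1.1 g

lemma near_out {a b c d z : ℂ} (h : 0 < ori a b c) (hz : z ∈ openSegment ℝ a b) :
    ∀ᶠ w in 𝓝 z, w ∈ Ot a b c ∪ openSegment ℝ a b ∪ Oo a b d := by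
  have e1 := near_side h hz
  filter_upwards [e1] with w g1
  rcases lt_trichotomy (ori a b w) 0 with g | g | g
  · right; exact Or.inl g
  · left; right; exact g1.2 g
  · left; left; exact g1.1 g

lemma seg_sub_Kt {a b c : ℂ} (h : 0 < ori a b c) : openSegment ℝ a b ⊆ Kt a b c := by
  intro z hz
  obtain ⟨h1, h2, h3⟩ := open_pos h hz
  exact ⟨h1.ge, h2.le, h3.le⟩

end Pool.Agent.Q239.OneP
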